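import Pool.Agent.L7h73.SG.Prj

/-!
# Additivity, and the part given by a class
-/

set_option autoImplicit false
set_option linter.unusedVariables false
set_option linter.unusedSectionVars false

open CategoryTheory AlgebraicGeometry CategoryTheory.Limits

universe u v

namespace Pool.Agent.L7h73.SG

open Pool.Agent.H914 Pool.Agent.H914.VarClass Pool.Agent.H914.VarClass.Obj
  Pool.Agent.H914.WeilCohomology Pool.Agent.H281R3.HT Pool.Agent.W552 Pool.Agent.W539.Ker Module
  Pool.Agent.L7h85.SG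

variable {k : Type u} [Field k] {𝒱 : VarClass k} {ops : CycleOps 𝒱}
  {W : WeilCohomology.{u, v} ops} {X Y : 𝒱.Obj}

/-- `Mid` for the product -/
def MidP (P Q : PV W) (e : Module.End W.K (W.H (P.X.prod Q.X))) (x : W.H (P.X.prod Q.X)) :
    Prop := AS W (P.X.prod Q.X) x ∧ hp P Q x = 0 ∧ e x = x

lemma eg_app {Z : 𝒱.Obj} {u v w : Module.End W.K (W.H Z)} (h : u * v = w) (x : W.H Z) :
    u (v x) = w x := by rw [← h]; rfl

section Add

variable (P Q : PV W) {e : Module.End W.K (W.H P.X)} {g : Module.End W.K (W.H Q.X)}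

lemma mid_apply (he : Pj P e) (hg : Pj Q g) {x : W.H (P.X.prod Q.X)}
    (hx : AS W (P.X.prod Q.X) x) (hx' : hp P Q x = 0) :
    MidP P Q (extOp W e g) (extOp W e g x) := by
  refine ⟨(he.aop.ext hg.aop).apply hx, ?_, ?_⟩
  · have h1 := congrArg (fun F => F x) (wt_ext P Q he.wt hg.wt)
    change extOp W e g (hp P Q x) = hp P Q (extOp W e g x) at h1
    rw [← h1, hx', map_zero]
  · exact eg_app (idem_ext he.idem hg.idem) x

theorem s_ADD (hGD : S_GDP W) (hSUM : S_SUM.{v, v}) : S_ADD hGD := by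
  intro P Q e g he hg σ₁ σ₂ h₁ h₂
  have hg' := pj_compl hg
  have hQ1 := pj_one Q
  have hpj : Pj (PV.prod hGD P Q) (extOp W e 1) := s_PJX hGD P Q e 1 he hQ1
  have hRF := s_RFM (PV.prod hGD P Q) (extOp W e 1) hpj
  have e1 : extOp W e (1 : Module.End W.K (W.H Q.X)) * extOp W e g = extOp W e g := by
    rw [extOp_mul, he.idem, one_mul]
  have e2 : extOp W e (1 : Module.End W.K (W.H Q.X)) * extOp W e (1 - g) =
      extOp W e (1 - g) := by
    rw [extOp_mul, he.idem, one_mul]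
  have e3 : extOp W e g + extOp W e (1 - g) = extOp W e 1 := by
    rw [← extOp_add_right, add_sub_cancel]
  have e4 : extOp W e g * extOp W e (1 - g) = 0 := by
    rw [extOp_mul, mul_sub, mul_one, hg.idem, sub_self]
    apply ext_kunneth_lin
    intro a b
    rw [extOp_tmul, LinearMap.zero_apply, LinearMap.zero_apply, map_zero, mul_zero]
  refine hSUM W.K (W.H (P.X.prod Q.X)) (MidP P Q (extOp W e 1)) (MidP P Q (extOp W e g))
    (MidP P Q (extOp W e (1 - g))) (bp P Q) hRF ?_ ?_ ?_ ?_ σ₁ σ₂ h₁ h₂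
  · rintro x ⟨hx1, hx2, hx3⟩
    refine ⟨hx1, hx2, ?_⟩
    have h1 := eg_app e1 x
    rwa [hx3] at h1
  · rintro x ⟨hx1, hx2, hx3⟩
    refine ⟨hx1, hx2, ?_⟩
    have h1 := eg_app e2 x
    rwa [hx3] at h1
  · rintro x ⟨hx1, hx2, hx3⟩
    refine ⟨extOp W e g x, extOp W e (1 - g) x, mid_apply P Q he hg hx1 hx2,
      mid_apply P Q he hg' hx1 hx2, ?_⟩
    rw [← LinearMap.add_apply, e3, hx3]
  · rintro y z ⟨_, _, hy⟩ ⟨_, _, hz⟩
    rw [← hy, ← hz, sa_ext P Q he.sa hg.sa, eg_app e4, LinearMap.zero_apply, map_zero]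

end Add

/-- the contraction with the class `z` -/
noncomputable def cz (P Q : PV W) (z : W.H Q.X) (c : ℚ) (x : W.H (P.X.prod Q.X)) : W.H P.X :=
  ((c⁻¹ : ℚ) : W.K) • W.push (fst P.X Q.X) (x * W.map (snd P.X Q.X) (st W Q.X Q.D Q.f z))

lemma push_fst' (a : W.H X) (c : W.H Y) :
    W.push (fst X Y) (W.map (fst X Y) a * W.map (snd X Y) c) = W.tr Y c • a := by
  refine gr_induction (W.isInternal Y) (p := fun c => W.push (fst X Y)
    (W.map (fst X Y) a * W.map (snd X Y) c) = W.tr Y c • a) ?_ ?_ c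
  · intro j c hc
    exact push_fst a hc
  · intro c d hc hd
    rw [map_add, mul_add, map_add, hc, hd, map_add, add_smul]

lemma cz_ext (P Q : PV W) {z : W.H Q.X} (hz : AS W Q.X z) (c : ℚ) (x : W.H (P.X.prod Q.X)) :
    ext W (cz P Q z c x) z = extOp W 1 (ez Q z c) x := by
  refine W.kunneth_induction (p := fun x => ext W (cz P Q z c x) z =
    extOp W 1 (ez Q z c) x) ?_ ?_ x
  · intro a b ha hb
    rw [map_add, ← ha, ← hb, cz, cz, cz, add_mul, map_add, smul_add]
    simp only [ext, map_add, add_mul]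
  · intro i j a _ b _
    rw [extOp_tmul, Module.End.one_apply, ez_apply, cz, mul_assoc, ← map_mul, push_fst', map_smul,
      mul_smul_comm, smul_smul]
    change W.map (fst P.X Q.X) _ * W.map (snd P.X Q.X) z = _
    rw [map_smul, smul_mul_assoc, Rat.cast_inv]
    rfl

lemma ext_inj (P Q : PV W) {z : W.H Q.X} {c : ℚ} (hc : c ≠ 0) (hzz : Q.b z z = (c : W.K))
    {a : W.H P.X} (h : ext W a z = 0) : a = 0 := by
  apply P.gd.nondeg
  intro y
  have h1 := bp_ext P Q y a z z
  rw [h, map_zero, hzz] at h1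
  exact (mul_eq_zero.1 h1.symm).resolve_right (Rat.cast_ne_zero.2 hc)

lemma ext_sub (a b : W.H X) (z : W.H Y) : ext W (a - b) z = ext W a z - ext W b z := by
  simp only [ext, map_sub, sub_mul]

theorem s_SLO (hGD : S_GDP W) (hTRA : S_TRA.{v, v}) : S_SLO hGD := by
  intro P Q e z c hc hz hzz he σ hσ
  have hcK : (c : W.K) ≠ 0 := Rat.cast_ne_zero.2 hc
  obtain ⟨_, hez, _, _⟩ := s_EZ Q z c hc hz hzz
  have hzez : ez Q z c z = z := by rw [ez_apply, hzz, inv_mul_cancel₀ hcK, one_smul]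
  have hext : ∀ a : W.H P.X, extOp W e (ez Q z c) (ext W a z) = ext W (e a) z := by
    intro a
    have h1 : extOp W e (ez Q z c) (ext W a z) = ext W (e a) (ez Q z c z) := extOp_tmul _ _ _ _
    rw [h1, hzez]
  have hw : ∀ a : W.H P.X, hp P Q (ext W a z) = ext W (P.h a) z := by
    intro a
    have h1 : hp P Q (ext W a z) = W.map (fst P.X Q.X) (wt (W.isInternal P.X) P.X.dim a) *
        W.map (snd P.X Q.X) z + W.map (fst P.X Q.X) a *
          W.map (snd P.X Q.X) (wt (W.isInternal Q.X) Q.X.dim z) := by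
      rw [hp, wt_prod]
      exact extSum_tmul _ _ _ _
    have h2 : wt (W.isInternal Q.X) Q.X.dim z = 0 := hz.2.1
    rw [h1, h2, map_zero, mul_zero, add_zero]
    rfl
  refine hTRA W.K (W.H P.X) (W.H (P.X.prod Q.X)) (Mid P e) (MidP P Q (extOp W e (ez Q z c)))
    P.b (bp P Q) (fun a => ext W a z) c hc ?_ ?_ ?_ σ hσ
  · intro x y _ _
    rw [bp_ext, hzz, mul_comm]
  · rintro x ⟨hx1, hx2, hx3⟩
    refine ⟨hx1.ext hz.1, ?_, ?_⟩
    · rw [hw, hx2]
      simp only [ext, map_zero, zero_mul]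
    · rw [hext, hx3]
  · rintro x' ⟨hx1, hx2, hx3⟩
    have h1 : extOp W 1 (ez Q z c) x' = x' := by
      have h2 : extOp W 1 (ez Q z c) * extOp W e (ez Q z c) = extOp W e (ez Q z c) := by
        rw [extOp_mul, one_mul, hez.idem]
      have h3 := eg_app h2 x'
      rwa [hx3] at h3
    have h2 : ext W (cz P Q z c x') z = x' := by rw [cz_ext P Q hz.1, h1]
    refine ⟨cz P Q z c x', ⟨?_, ?_, ?_⟩, h2⟩
    · exact ((hx1.mul ((Q.gd.fr.st_AS hz.1).map _)).push _).smul _
    · apply ext_inj P Q hc hzz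
      rw [← hw, h2, hx2]
    · rw [← sub_eq_zero]
      apply ext_inj P Q hc hzz
      rw [ext_sub, ← hext, h2, hx3, sub_self]

end Pool.Agent.L7h73.SG
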