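import Pool.Agent.L7h73.SG.Prj

/-!
# The signature on the square of a polarized variety
-/

set_option autoImplicit false
set_option linter.unusedVariables false
set_option linter.unusedSectionVars false

open CategoryTheory AlgebraicGeometry CategoryTheory.Limits

universe u v

namespace Pool.Agent.L7h73.SG

open Pool.Agent.H914 Pool.Agent.H914.VarClass Pool.Agent.H914.VarClass.Obj
  Pool.Agent.H914.WeilCohomology Pool.Agent.H281R3.HT Pool.Agent.W552 Pool.Agent.W539.Ker Module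
  Pool.Agent.L7h85.SG

variable {k : Type u} [Field k] {𝒱 : VarClass k} {ops : CycleOps 𝒱}
  {W : WeilCohomology.{u, v} ops} {X Y : 𝒱.Obj}

lemma wsum_two (d : ℕ) (s : ℕ → ℤ) {m : ℕ} (hm : m ≤ d + 1) :
    wsum (2 * d) s (2 * ((d : ℤ) - m + 1)) = ∑ n ∈ Finset.range m, s n := by
  rw [wsum, ← Finset.sum_filter]
  apply Finset.sum_congr _ fun _ _ => rfl
  ext n
  rw [Finset.mem_filter, Finset.mem_range, Finset.mem_range, abs_of_nonneg (by omega)]
  omega

lemma wsum_zero (d : ℕ) (s : ℕ → ℤ) :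
    wsum (2 * d) s 0 = ∑ n ∈ Finset.range (d + 1), s n := by
  have h := wsum_two d s (m := d + 1) le_rfl
  have h1 : 2 * ((d : ℤ) - (d + 1 : ℕ) + 1) = 0 := by push_cast; ring
  rwa [h1] at h

/-- the inequalities for the partial sums -/
lemma partial_abs (P : PV W) {m : ℕ} (hm : m ≤ P.X.dim + 1) :
    |∑ n ∈ Finset.range m, sig W (P.X.prod P.X)
      (ops.pull (fst P.X P.X) P.D + ops.pull (snd P.X P.X) P.D) n| ≤
      ∑ n ∈ Finset.range (P.X.dim + 1), sig W (P.X.prod P.X)
        (ops.pull (fst P.X P.X) P.D + ops.pull (snd P.X P.X) P.D) n := by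
  set s := sig W (P.X.prod P.X) (ops.pull (fst P.X P.X) P.D + ops.pull (snd P.X P.X) P.D) with hs
  set w : ℤ := 2 * ((P.X.dim : ℤ) - m + 1) with hw
  have hd : (P.X.prod P.X).dim = 2 * P.X.dim := by rw [dim_prod]; ring
  rw [← wsum_two P.X.dim s hm, ← wsum_zero, ← hw]
  have key : ∀ ε : ℤ, ε * ε = 1 →
      0 ≤ 2 * wsum (2 * P.X.dim) s 0 + 2 * ε * wsum (2 * P.X.dim) s w := by
    intro ε hε
    have h1 := main_ineq (I := Fin 2) (X := fun _ => P.X) (D := fun _ => P.D) (f := fun _ => P.f)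
      (fun _ => P.gd) ![0, w] ![1, ε] (by
        intro a
        fin_cases a
        · simp
        · simpa using hε)
    simp only [Fin.sum_univ_two, Matrix.cons_val_zero, Matrix.cons_val_one, sub_self,
      sub_zero, zero_sub] at h1
    rw [hd, ← hs, hε] at h1
    have h9 := wsum_neg (2 * P.X.dim) s w
    have h10 : wsum (2 * P.X.dim) s (-0) = wsum (2 * P.X.dim) s 0 := wsum_neg _ _ _
    simp only [h9, h10] at h1
    linarith
  have h1 := key 1 (by norm_num)
  have h2 := key (-1) (by norm_num)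
  rw [abs_le]
  constructor <;> linarith

theorem s_POS (hGD : S_GDP W) (hUNI : S_UNI.{v, v}) : S_POS hGD := by
  intro P σ hσ
  have hF : Fr W (P.X.prod P.X) (ops.pull (fst P.X P.X) P.D + ops.pull (snd P.X P.X) P.D)
      (extSum W P.f P.f) := P.gd.fr.prod P.gd.fr
  set s := sig W (P.X.prod P.X) (ops.pull (fst P.X P.X) P.D + ops.pull (snd P.X P.X) P.D) with hs
  have hd : (P.X.prod P.X).dim = 2 * P.X.dim := by rw [dim_prod]; ring
  obtain ⟨ι, _, y, t, h1, h2, h3, h4, h5, h6, h7⟩ := exists_fam hF 0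
  have hsg : HasSg (Mid (PV.prod hGD P P) 1) (PV.prod hGD P P).b
      (wsum (2 * P.X.dim) s 0) := by
    refine ⟨ι, inferInstance, y, t, ⟨fun i => ⟨h1 i, ?_, rfl⟩, h3, h4, h5, ?_⟩, ?_⟩
    · have := h2 i
      rw [Int.cast_zero, zero_smul] at this
      exact this
    · have hz : ∀ u : W.H (P.X.prod P.X), (0 : W.H (P.X.prod P.X)) = ((0 : ℤ) : W.K) • u := by
        intro u
        rw [Int.cast_zero, zero_smul]
      exact fun u hu' hu => h6 u hu'.1 (hu'.2.1.trans (hz u)) hu
    · rw [h7, hd]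
  have hRF := s_RFM (PV.prod hGD P P) 1 (pj_one _)
  have hσ' : σ = wsum (2 * P.X.dim) s 0 :=
    hUNI W.K (W.H (PV.prod hGD P P).X) (Mid (PV.prod hGD P P) 1) (PV.prod hGD P P).b hRF σ _
      hσ hsg
  rw [wsum_zero] at hσ'
  have hpa : ∀ m ≤ P.X.dim + 1, |∑ n ∈ Finset.range m, s n| ≤ σ := by
    intro m hm
    rw [hσ']
    exact partial_abs P hm
  refine ⟨?_, hσ', fun j hj => ?_⟩
  · have := hpa 0 (Nat.zero_le _)
    exact (abs_nonneg _).trans this
  · have a1 := abs_le.1 (hpa j (by omega))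
    have a2 := abs_le.1 (hpa (j + 1) (by omega))
    rw [Finset.sum_range_succ] at a2
    change |s j| ≤ 2 * σ
    rw [abs_le]
    constructor <;> linarith [a1.1, a1.2, a2.1, a2.2]

end Pool.Agent.L7h73.SG
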