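import Pool.Agent.L7h85.SG.Geo

/-!
# Self-adjoint algebraic idempotents
-/

set_option autoImplicit false
set_option linter.unusedVariables false
set_option linter.unusedSectionVars false

open CategoryTheory AlgebraicGeometry CategoryTheory.Limits

universe u v

namespace Pool.Agent.L7h73.SG

open Pool.Agent.H914 Pool.Agent.H914.VarClass Pool.Agent.H914.VarClass.Obj
  Pool.Agent.H914.WeilCohomology Pool.Agent.H281R3.HT Pool.Agent.W552 Pool.Agent.W539.Ker Module
  Pool.Agent.L7h85.SG

variable {k : Type u} [Field k] {𝒱 : VarClass k} {ops : CycleOps 𝒱}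
  {W : WeilCohomology.{u, v} ops} {X Y : 𝒱.Obj}

lemma par_AS {x : W.H X} (hx : AS W X x) : par (W.isInternal X) x = x := by
  refine AS.ind (p := fun x => par (W.isInternal X) x = x) ?_ ?_ hx
  · intro j x hx
    rw [par, scal_apply _ _ (alg_gr hx), pow_mul]
    simp
  · intro a b ha hb
    rw [map_add, ha, hb]

lemma bsymm {D : X.Cycles} {f : Module.End W.K (W.H X)} (G : Gd W X D f) {y : W.H X}
    (hy : AS W X y) (x : W.H X) : bf W X D f x y = bf W X D f y x := by
  rw [G.sy x y, par_AS hy]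

theorem s_RFM : S_RFM W := by
  intro P e he
  refine ⟨⟨⟨AS.zero, map_zero _, map_zero _⟩, ?_, ?_⟩, ?_, ?_⟩
  · rintro x y ⟨hx1, hx2, hx3⟩ ⟨hy1, hy2, hy3⟩
    exact ⟨hx1.add hy1, by rw [map_add, hx2, hy2, add_zero], by rw [map_add, hx3, hy3]⟩
  · rintro q x ⟨hx1, hx2, hx3⟩
    exact ⟨hx1.smul q, by rw [map_smul, hx2, smul_zero], by rw [map_smul, hx3]⟩
  · intro x y hx hy
    exact P.gd.fr.bf_rat hx.1 hy.1
  · intro x y hx hy
    exact bsymm P.gd hy.1 x

lemma pj_one (P : PV W) : Pj P 1 :=
  ⟨AOp.one, one_mul 1, fun a b => rfl, by rw [one_mul, mul_one]⟩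

lemma pj_compl {P : PV W} {e : Module.End W.K (W.H P.X)} (h : Pj P e) : Pj P (1 - e) where
  aop := by
    have h1 := AOp.one.add (h.aop.smul (-1))
    have h2 : (1 : Module.End W.K (W.H P.X)) + ((-1 : ℚ) : W.K) • e = 1 - e := by
      rw [Rat.cast_neg, Rat.cast_one]
      apply LinearMap.ext
      intro x
      rw [LinearMap.add_apply, LinearMap.smul_apply, LinearMap.sub_apply, neg_smul, one_smul,
        sub_eq_add_neg]
    rwa [h2] at h1
  idem := by rw [mul_sub, sub_mul, sub_mul, one_mul, mul_one, one_mul, h.idem]; abel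
  sa := by
    intro a b
    rw [LinearMap.sub_apply, LinearMap.sub_apply, Module.End.one_apply, Module.End.one_apply,
      map_sub, LinearMap.sub_apply, map_sub, h.sa]
  wt := by rw [sub_mul, mul_sub, one_mul, mul_one, h.wt]

/-- operators of rank one -/
lemma aop_rank_one {u z : W.H X} (hu : AS W X u) (hz : AS W X z) :
    ∃ v : Module.End W.K (W.H X), AOp W X X v ∧ ∀ x, v x = W.tr X (x * u) • z := by
  refine ⟨W.corr (ext W u z), ⟨_, hu.ext hz, rfl⟩, fun x => ?_⟩
  rw [corr_apply, ext, mul_assoc, (hz.map (snd X X)).comm, ← mul_assoc, ← map_mul, push_snd,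
    hu.comm]

theorem s_EZ : S_EZ W := by
  intro P z c hc hz hzz
  have hcK : (c : W.K) ≠ 0 := Rat.cast_ne_zero.2 hc
  have hsym : ∀ x, P.b x z = P.b z x := fun x => bsymm P.gd hz.1 x
  have hez : Pj P (ez P z c) := by
    refine ⟨?_, ?_, ?_, ?_⟩
    · obtain ⟨v, hv, hv'⟩ := aop_rank_one (P.gd.fr.st_AS hz.1) hz.1
      have h1 := hv.smul c⁻¹
      have h2 : ((c⁻¹ : ℚ) : W.K) • v = ez P z c := by
        apply LinearMap.ext
        intro x
        rw [ez_apply, LinearMap.smul_apply, hv', smul_smul, Rat.cast_inv]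
        rfl
      rwa [h2] at h1
    · apply LinearMap.ext
      intro x
      rw [Module.End.mul_apply, ez_apply, ez_apply, map_smul, LinearMap.smul_apply, hzz,
        smul_eq_mul, mul_comm _ (c : W.K), ← mul_assoc, inv_mul_cancel₀ hcK, one_mul]
    · intro a b
      rw [ez_apply, ez_apply, map_smul, LinearMap.smul_apply, map_smul, smul_eq_mul, smul_eq_mul,
        hsym b]
      ring
    · apply LinearMap.ext
      intro x
      rw [Module.End.mul_apply, Module.End.mul_apply, ez_apply, ez_apply, map_smul, hz.2.1,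
        smul_zero, P.gd.wt_self]
      have h1 : P.b x (P.h z) = 0 := by rw [hz.2.1, map_zero]
      change ((c : W.K)⁻¹ * P.b x (P.h z)) • z = 0
      rw [h1, mul_zero, zero_smul]
  have hz0 : z ≠ 0 := by
    rintro rfl
    rw [map_zero] at hzz
    exact hcK hzz.symm
  refine ⟨pj_one P, hez, pj_compl hez, ?_⟩
  have h1 : LinearMap.range (1 - ez P z c) = LinearMap.ker (ez P z c) := by
    ext x
    rw [LinearMap.mem_ker]
    constructor
    · rintro ⟨y, rfl⟩
      rw [← Module.End.mul_apply, mul_sub, mul_one, hez.idem, sub_self, LinearMap.zero_apply]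
    · intro hx
      exact ⟨x, by rw [LinearMap.sub_apply, Module.End.one_apply, hx, sub_zero]⟩
  have h2 : LinearMap.range (ez P z c) = Submodule.span W.K {z} := by
    apply le_antisymm
    · rintro _ ⟨x, rfl⟩
      rw [ez_apply]
      exact Submodule.smul_mem _ _ (Submodule.mem_span_singleton_self z)
    · rw [Submodule.span_singleton_le_iff_mem]
      exact ⟨z, by rw [ez_apply, hzz, inv_mul_cancel₀ hcK, one_smul]⟩
  have h3 := LinearMap.finrank_range_add_finrank_ker (ez P z c)
  rw [h2, finrank_span_singleton hz0, ← h1, add_comm] at h3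
  exact h3

/-- the form on the product -/
noncomputable abbrev bp (P Q : PV W) :
    W.H (P.X.prod Q.X) →ₗ[W.K] W.H (P.X.prod Q.X) →ₗ[W.K] W.K :=
  bf W (P.X.prod Q.X) (ops.pull (fst P.X Q.X) P.D + ops.pull (snd P.X Q.X) Q.D)
    (extSum W P.f Q.f)

/-- the weight operator on the product -/
noncomputable abbrev hp (P Q : PV W) : Module.End W.K (W.H (P.X.prod Q.X)) :=
  wt (W.isInternal (P.X.prod Q.X)) (P.X.prod Q.X).dim

lemma bp_ext (P Q : PV W) (a a' : W.H P.X) (b b' : W.H Q.X) :
    bp P Q (ext W a b) (ext W a' b') = P.b a a' * Q.b b b' :=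
  P.gd.fr.bf_ext Q.gd.fr a a' b b'

lemma sa_ext (P Q : PV W) {e : Module.End W.K (W.H P.X)} {g : Module.End W.K (W.H Q.X)}
    (he : ∀ a b, P.b (e a) b = P.b a (e b)) (hg : ∀ a b, Q.b (g a) b = Q.b a (g b))
    (x y : W.H (P.X.prod Q.X)) : bp P Q (extOp W e g x) y = bp P Q x (extOp W e g y) := by
  have hkey : ∀ (a a' : W.H P.X) (b b' : W.H Q.X),
      bp P Q (extOp W e g (ext W a b)) (ext W a' b') =
        bp P Q (ext W a b) (extOp W e g (ext W a' b')) := by
    intro a a' b b'
    have h1 : extOp W e g (ext W a b) = ext W (e a) (g b) := extOp_tmul _ _ _ _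
    have h2 : extOp W e g (ext W a' b') = ext W (e a') (g b') := extOp_tmul _ _ _ _
    rw [h1, h2, bp_ext, bp_ext, he, hg]
  refine W.kunneth_induction (p := fun x => bp P Q (extOp W e g x) y =
    bp P Q x (extOp W e g y)) ?_ ?_ x
  · intro a b ha hb
    rw [map_add, map_add, map_add, LinearMap.add_apply, LinearMap.add_apply, ha, hb]
  · intro i j a _ b _
    refine W.kunneth_induction (p := fun y => bp P Q (extOp W e g
      (W.map (fst P.X Q.X) a * W.map (snd P.X Q.X) b)) y =
        bp P Q (W.map (fst P.X Q.X) a * W.map (snd P.X Q.X) b) (extOp W e g y)) ?_ ?_ y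
    · intro a' b' ha hb
      rw [map_add, map_add, map_add, ha, hb]
    · intro i' j' a' _ b' _
      exact hkey a a' b b'

lemma wt_ext (P Q : PV W) {e : Module.End W.K (W.H P.X)} {g : Module.End W.K (W.H Q.X)}
    (he : e * P.h = P.h * e) (hg : g * Q.h = Q.h * g) :
    extOp W e g * hp P Q = hp P Q * extOp W e g := by
  have h1 : e * wt (W.isInternal P.X) P.X.dim = wt (W.isInternal P.X) P.X.dim * e := he
  have h2 : g * wt (W.isInternal Q.X) Q.X.dim = wt (W.isInternal Q.X) Q.X.dim * g := hg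
  rw [hp, wt_prod, extSum, mul_add, add_mul, extL_apply, extR_apply, extOp_mul, extOp_mul,
    extOp_mul, extOp_mul, h1, h2, one_mul, mul_one, one_mul, mul_one]

lemma idem_ext {e : Module.End W.K (W.H X)} {g : Module.End W.K (W.H Y)} (he : e * e = e)
    (hg : g * g = g) : extOp W e g * extOp W e g = extOp W e g := by
  rw [extOp_mul, he, hg]

theorem s_PJX (hGD : S_GDP W) : S_PJX hGD := fun P Q e g he hg =>
  ⟨he.aop.ext hg.aop, idem_ext he.idem hg.idem, sa_ext P Q he.sa hg.sa, wt_ext P Q he.wt hg.wt⟩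

end Pool.Agent.L7h73.SG
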